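import Mathlib

/-!
Definitions for critical finite commutative rings (MP_c0911c_al).

Rings are associative and need not have an identity element.
-/

set_option autoImplicit false

namespace Pool.Agent.H36R2.Crit

universe u

/-- Terms of the language `(+, -, 0, ·)` of rings in the variables `x₀, x₁, x₂, …`. -/
inductive RTerm : Type
  | var : ℕ → RTerm
  | zero : RTerm
  | neg : RTerm → RTerm
  | add : RTerm → RTerm → RTerm
  | mul : RTerm → RTerm → RTerm

/-- The value of a term in a ring `R` when the variable `xᵢ` is replaced by `v i`. -/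
def RTerm.eval {R : Type u} [NonUnitalRing R] (v : ℕ → R) : RTerm → R
  | .var i => v i
  | .zero => 0
  | .neg s => - s.eval v
  | .add s t => s.eval v + t.eval v
  | .mul s t => s.eval v * t.eval v

/-- The ring `R` satisfies the identity `s = t`. -/
def Satisfies (R : Type u) [NonUnitalRing R] (s t : RTerm) : Prop :=
  ∀ v : ℕ → R, s.eval v = t.eval v

/-- The ring `R` is critical: it is not in the variety generated by its proper quotient rings,
that is, some identity holds in `R / I` for all nonzero ideals `I` of `R`, but fails in `R`. -/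
def Critical (R : Type u) [NonUnitalRing R] : Prop :=
  ∃ s t : RTerm, (∀ I : TwoSidedIdeal R, I ≠ ⊥ → Satisfies I.ringCon.Quotient s t) ∧
    ¬ Satisfies R s t

/-- `R` is subdirectly irreducible: it has a nonzero ideal contained in all nonzero ideals. -/
def SubdirectlyIrreducible (R : Type u) [NonUnitalRing R] : Prop :=
  ∃ M : TwoSidedIdeal R, M ≠ ⊥ ∧ ∀ I : TwoSidedIdeal R, I ≠ ⊥ → M ≤ I

/-- The product `v 0 * v 1 * ⋯ * v n`. -/
def mulSeq {R : Type u} [NonUnitalRing R] (v : ℕ → R) : ℕ → R
  | 0 => v 0
  | n + 1 => mulSeq v n * v (n + 1)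

/-- `R` is nilpotent: for some `n`, all products of `n + 1` elements of `R` vanish. -/
def NilpotentRing (R : Type u) [NonUnitalRing R] : Prop :=
  ∃ n : ℕ, ∀ v : ℕ → R, mulSeq v n = 0

/-- The annihilator `{a | a R = 0}` of a commutative ring, as an additive group. -/
def annihilator (R : Type u) [NonUnitalCommRing R] : AddSubgroup R where
  carrier := {a | ∀ r : R, a * r = 0}
  zero_mem' := fun r => zero_mul r
  add_mem' := fun {a b} ha hb r => by
    rw [add_mul, ha r, hb r, add_zero]
  neg_mem' := fun {a} ha r => by
    rw [neg_mul, ha r, neg_zero]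

/-- `R` is isomorphic to a local ring with identity which has a smallest nonzero ideal. -/
def LocalType (R : Type u) [NonUnitalCommRing R] : Prop :=
  ∃ (S : Type u) (_ : CommRing S), IsLocalRing S ∧
    (∃ M : Ideal S, M ≠ ⊥ ∧ ∀ I : Ideal S, I ≠ ⊥ → M ≤ I) ∧ Nonempty (R ≃+* S)

/-- `R` is nilpotent and its annihilator is a cyclic group of prime power order `p ^ (k + 1)`. -/
def NilpotentType (R : Type u) [NonUnitalCommRing R] : Prop :=
  NilpotentRing R ∧ IsAddCyclic (annihilator R) ∧
    ∃ p k : ℕ, p.Prime ∧ Nat.card (annihilator R) = p ^ (k + 1)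

end Pool.Agent.H36R2.Crit
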