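import Pool.Agent.H36R2.CritDefs

/-! Proofs for critical finite commutative rings (MP_c0911c_al). -/

set_option autoImplicit false

namespace Pool.Agent.H36R2.Crit

universe u

/-! ### Identities and quotients -/

theorem eval_quot {R : Type u} [NonUnitalRing R] (I : TwoSidedIdeal R) (v : ℕ → R) (s : RTerm) :
    s.eval (fun i => ((v i : R) : I.ringCon.Quotient)) = ((s.eval v : R) : I.ringCon.Quotient) := by
  induction s with
  | var i => rfl
  | zero => rfl
  | neg s ih => simp only [RTerm.eval, ih]; rfl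
  | add s t ihs iht => simp only [RTerm.eval, ihs, iht]; rfl
  | mul s t ihs iht => simp only [RTerm.eval, ihs, iht]; rfl

theorem satisfies_quot_iff {R : Type u} [NonUnitalRing R] (I : TwoSidedIdeal R) (s t : RTerm) :
    Satisfies I.ringCon.Quotient s t ↔ ∀ v : ℕ → R, s.eval v - t.eval v ∈ I := by
  constructor
  · intro h v
    have := h (fun i => ((v i : R) : I.ringCon.Quotient))
    rw [eval_quot, eval_quot] at this
    have h2 : I.ringCon (s.eval v) (t.eval v) := Quotient.exact this
    exact (TwoSidedIdeal.rel_iff I _ _).1 h2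
  · intro h v
    have hs : ∀ i, ∃ r : R, ((r : R) : I.ringCon.Quotient) = v i := fun i =>
      Quotient.exists_rep (v i)
    choose w hw using hs
    have hv : v = fun i => ((w i : R) : I.ringCon.Quotient) := by
      funext i; exact (hw i).symm
    rw [hv, eval_quot, eval_quot]
    exact Quotient.sound ((TwoSidedIdeal.rel_iff I _ _).2 (h w))

theorem critical_iff {R : Type u} [NonUnitalRing R] :
    Critical R ↔ ∃ s t : RTerm,
      (∀ I : TwoSidedIdeal R, I ≠ ⊥ → ∀ v : ℕ → R, s.eval v - t.eval v ∈ I) ∧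
      ∃ v : ℕ → R, s.eval v - t.eval v ≠ 0 := by
  unfold Critical
  simp only [satisfies_quot_iff]
  refine exists_congr fun s => exists_congr fun t => and_congr_right fun _ => ?_
  unfold Satisfies
  push Not
  exact exists_congr fun v => by rw [sub_ne_zero]


theorem eq_bot_iff' {R : Type u} [NonUnitalRing R] (I : TwoSidedIdeal R) :
    I = ⊥ ↔ ∀ x ∈ I, x = 0 := by
  constructor
  · rintro rfl x hx
    simpa using hx
  · intro h
    refine TwoSidedIdeal.ext fun x => ?_
    constructor
    · intro hx
      rw [h x hx]; exact TwoSidedIdeal.zero_mem _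
    · intro hx
      have : x = 0 := by simpa using hx
      rw [this]; exact TwoSidedIdeal.zero_mem _

theorem ne_bot_iff' {R : Type u} [NonUnitalRing R] (I : TwoSidedIdeal R) :
    I ≠ ⊥ ↔ ∃ x ∈ I, x ≠ 0 := by
  rw [ne_eq, eq_bot_iff']
  push Not
  rfl

/-- A critical ring is subdirectly irreducible. -/
theorem si_of_critical {R : Type u} [NonUnitalRing R] (h : Critical R) :
    SubdirectlyIrreducible R := by
  obtain ⟨s, t, hI, v, hv⟩ := critical_iff.1 h
  refine ⟨TwoSidedIdeal.span {s.eval v - t.eval v}, ?_, ?_⟩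
  · rw [ne_bot_iff']
    exact ⟨_, TwoSidedIdeal.subset_span (Set.mem_singleton _), hv⟩
  · intro I hne
    rw [TwoSidedIdeal.span_le]
    rintro x rfl
    exact hI I hne v

/-- The ideal of a commutative ring given by an additive subgroup which absorbs products. -/
def mkIdeal {R : Type u} [NonUnitalCommRing R] (A : AddSubgroup R)
    (h : ∀ r a, a ∈ A → r * a ∈ A) : TwoSidedIdeal R :=
  TwoSidedIdeal.mk' (A : Set R) A.zero_mem (fun ha hb => A.add_mem ha hb)
    (fun ha => A.neg_mem ha) (fun {r a} ha => h r a ha)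
    (fun {a r} ha => by rw [mul_comm]; exact h r a ha)

theorem mem_mkIdeal {R : Type u} [NonUnitalCommRing R] (A : AddSubgroup R)
    (h : ∀ r a, a ∈ A → r * a ∈ A) (x : R) : x ∈ mkIdeal A h ↔ x ∈ A := by
  unfold mkIdeal
  rw [TwoSidedIdeal.mem_mk']
  rfl

/-- The kernel of the multiplication by `a`. -/
def kerMul {R : Type u} [NonUnitalCommRing R] (a : R) : TwoSidedIdeal R :=
  mkIdeal
    { carrier := {x | a * x = 0}
      zero_mem' := mul_zero a
      add_mem' := fun {x y} hx hy => by
        show a * (x + y) = 0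
        rw [mul_add, show a * x = 0 from hx, show a * y = 0 from hy, add_zero]
      neg_mem' := fun {x} hx => by
        show a * (-x) = 0
        rw [mul_neg, show a * x = 0 from hx, neg_zero] }
    (fun r x hx => by
      show a * (r * x) = 0
      rw [mul_left_comm, show a * x = 0 from hx, mul_zero])

theorem mem_kerMul {R : Type u} [NonUnitalCommRing R] (a x : R) :
    x ∈ kerMul a ↔ a * x = 0 := by
  unfold kerMul
  rw [mem_mkIdeal]
  rfl

/-- The image of the multiplication by `a`. -/
def imMul {R : Type u} [NonUnitalCommRing R] (a : R) : TwoSidedIdeal R :=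
  mkIdeal
    { carrier := {x | ∃ y, a * y = x}
      zero_mem' := ⟨0, mul_zero a⟩
      add_mem' := by
        rintro x y ⟨x', rfl⟩ ⟨y', rfl⟩
        exact ⟨x' + y', mul_add _ _ _⟩
      neg_mem' := by
        rintro x ⟨x', rfl⟩
        exact ⟨-x', mul_neg _ _⟩ }
    (by
      rintro r x ⟨x', rfl⟩
      exact ⟨r * x', mul_left_comm _ _ _⟩)

theorem mem_imMul {R : Type u} [NonUnitalCommRing R] (a x : R) :
    x ∈ imMul a ↔ ∃ y, a * y = x := by
  unfold imMul
  rw [mem_mkIdeal]
  rfl

section SI

variable {R : Type u} [NonUnitalCommRing R]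

/-- Two ideals of a subdirectly irreducible ring with zero intersection. -/
theorem si_disj (h : SubdirectlyIrreducible R) (I J : TwoSidedIdeal R)
    (hIJ : ∀ x, x ∈ I → x ∈ J → x = 0) (hI : I ≠ ⊥) : J = ⊥ := by
  by_contra hJ
  obtain ⟨M, hM, hMin⟩ := h
  obtain ⟨m, hm, hm0⟩ := (ne_bot_iff' M).1 hM
  exact hm0 (hIJ m (hMin I hI hm) (hMin J hJ hm))

/-- In a finite subdirectly irreducible commutative ring whose smallest nonzero ideal is killed
by `R`, every element is nilpotent. Here `pw a n = a ^ (n + 1)`. -/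
def pw (a : R) : ℕ → R := mulSeq (fun _ => a)

theorem pw_succ (a : R) (n : ℕ) : pw a (n + 1) = pw a n * a := rfl

theorem pw_mul (a : R) (n : ℕ) (x : R) (hx : pw a n * x = 0) (k : ℕ) :
    pw a (n + k) * x = 0 := by
  induction k with
  | zero => exact hx
  | succ k ih => rw [← add_assoc, pw_succ, mul_right_comm, ih, zero_mul]

theorem pw_add (a : R) (m n : ℕ) : pw a m * pw a n = pw a (m + n + 1) := by
  induction n with
  | zero => rw [add_zero, pw_succ]; rfl
  | succ n ih => rw [pw_succ, ← mul_assoc, ih, ← add_assoc, ← pw_succ]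

theorem exists_pw_stable [Finite R] (a : R) :
    ∃ n : ℕ, ∀ x : R, pw a (n + n + 1) * x = 0 → pw a n * x = 0 := by
  classical
  have hfin := Fintype.ofFinite R
  -- for each `x`, choose an exponent
  have h1 : ∀ x : R, ∃ n : ℕ, ∀ m : ℕ, pw a m * x = 0 → pw a n * x = 0 := by
    intro x
    by_cases hx : ∃ m, pw a m * x = 0
    · obtain ⟨m, hm⟩ := hx
      exact ⟨m, fun _ _ => hm⟩
    · refine ⟨0, fun m hm => (hx ⟨m, hm⟩).elim⟩
  choose f hf using h1
  refine ⟨∑ x : R, f x, fun x hx => ?_⟩
  have h2 := hf x _ hx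
  obtain ⟨k, hk⟩ := Nat.exists_eq_add_of_le (Finset.single_le_sum (f := f)
    (fun i _ => Nat.zero_le (f i)) (Finset.mem_univ x))
  rw [hk]
  exact pw_mul a _ x h2 k

theorem nil_of_si [Finite R] (h : SubdirectlyIrreducible R)
    (hM : ∀ a : R, kerMul a ≠ ⊥) (a : R) : ∃ n, pw a n = 0 := by
  obtain ⟨n, hn⟩ := exists_pw_stable a
  have h1 : imMul (pw a n) = ⊥ := by
    refine si_disj h (kerMul (pw a n)) _ ?_ (hM _)
    intro x hx hy
    rw [mem_kerMul] at hx
    rw [mem_imMul] at hy
    obtain ⟨y, rfl⟩ := hy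
    rw [← mul_assoc, pw_add] at hx
    exact hn y hx
  refine ⟨n + 1, ?_⟩
  have : pw a (n + 1) ∈ imMul (pw a n) := (mem_imMul _ _).2 ⟨a, rfl⟩
  exact (eq_bot_iff' _).1 h1 _ this

theorem mulSeq_succ' (v : ℕ → R) (n : ℕ) :
    mulSeq v (n + 1) = v 0 * mulSeq (fun i => v (i + 1)) n := by
  induction n with
  | zero => rfl
  | succ n ih =>
    show mulSeq v (n + 1) * v (n + 1 + 1) = _
    rw [ih]
    show _ = v 0 * (mulSeq (fun i => v (i + 1)) n * v (n + 1 + 1))
    rw [mul_assoc]

theorem mulSeq_kill_mono (a : R) (n : ℕ) (h : ∀ v : ℕ → R, a * mulSeq v n = 0) (k : ℕ) :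
    ∀ v : ℕ → R, a * mulSeq v (n + k) = 0 := by
  induction k with
  | zero => exact h
  | succ k ih =>
    intro v
    show a * (mulSeq v (n + k) * v (n + k + 1)) = 0
    rw [← mul_assoc, ih, zero_mul]

/-- If each element is killed by all long products, then this holds uniformly. -/
theorem uniform_kill [Finite R] (g : R → R)
    (h : ∀ a : R, ∃ n, ∀ v : ℕ → R, g a * mulSeq v n = 0) :
    ∃ n, ∀ a : R, ∀ v : ℕ → R, g a * mulSeq v n = 0 := by
  classical
  have hfin := Fintype.ofFinite R
  choose f hf using h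
  refine ⟨∑ x : R, f x, fun x => ?_⟩
  obtain ⟨k, hk⟩ := Nat.exists_eq_add_of_le (Finset.single_le_sum (f := f)
    (fun i _ => Nat.zero_le (f i)) (Finset.mem_univ x))
  rw [hk]
  exact mulSeq_kill_mono (g x) (f x) (hf x) k

/-- A finite commutative nil ring is nilpotent. -/
theorem nilpotent_of_nil [Finite R] (h : ∀ a : R, ∃ n, pw a n = 0) : NilpotentRing R := by
  classical
  -- `T` is the set of elements not killed by long products
  by_cases hT : ∃ a : R, ∀ n, ∃ v : ℕ → R, a * mulSeq v n ≠ 0
  · exfalso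
    -- choose such an element `a` with `a R` as small as possible
    obtain ⟨a, ha, hmin⟩ : ∃ a : R, (∀ n, ∃ v : ℕ → R, a * mulSeq v n ≠ 0) ∧
        ∀ b : R, (∀ n, ∃ v : ℕ → R, b * mulSeq v n ≠ 0) →
          Nat.card {x // x ∈ imMul a} ≤ Nat.card {x // x ∈ imMul b} := by
      have hne : {a : R | ∀ n, ∃ v : ℕ → R, a * mulSeq v n ≠ 0}.Nonempty := hT
      obtain ⟨a, ha, hm⟩ := Set.exists_min_image _ (fun a : R => Nat.card {x // x ∈ imMul a})
        (Set.toFinite _) hne
      exact ⟨a, ha, hm⟩
    -- some multiple `a x` is again such an element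
    obtain ⟨x, hx⟩ : ∃ x : R, ∀ n, ∃ v : ℕ → R, a * x * mulSeq v n ≠ 0 := by
      by_contra hcon
      push Not at hcon
      obtain ⟨N, hN⟩ := uniform_kill (fun x => a * x) hcon
      obtain ⟨v, hv⟩ := ha (N + 1)
      apply hv
      rw [mulSeq_succ', ← mul_assoc]
      exact hN _ _
    have hsub : ∀ z, z ∈ imMul (a * x) → z ∈ imMul a := by
      intro z hz
      rw [mem_imMul] at hz ⊢
      obtain ⟨y, rfl⟩ := hz
      exact ⟨x * y, (mul_assoc _ _ _).symm⟩
    have heq : {z | z ∈ imMul (a * x)} = {z | z ∈ imMul a} := by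
      apply Set.eq_of_subset_of_ncard_le hsub _ (Set.toFinite _)
      exact hmin _ hx
    have hax : a * x ∈ imMul (a * x) := by
      have : a * x ∈ {z | z ∈ imMul a} := (mem_imMul _ _).2 ⟨x, rfl⟩
      rw [← heq] at this
      exact this
    obtain ⟨y, hy⟩ := (mem_imMul _ _).1 hax
    obtain ⟨n, hn⟩ := h y
    have hp : ∀ k, a * x * pw y k = a * x := by
      intro k
      induction k with
      | zero => exact hy
      | succ k ih => rw [pw_succ, ← mul_assoc, ih, hy]
    have h0 : a * x = 0 := by rw [← hp n, hn, mul_zero]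
    obtain ⟨v, hv⟩ := hx 0
    apply hv
    rw [h0, zero_mul]
  · push Not at hT
    obtain ⟨N, hN⟩ := uniform_kill (fun x => x) hT
    refine ⟨N + 1, fun v => ?_⟩
    rw [mulSeq_succ']
    exact hN _ _

end SI

/-! ### Finite abelian groups -/

theorem grp_prime {A : Type*} [AddCommGroup A] [Finite A] (m : A) (hm : m ≠ 0)
    (h : ∀ d : A, d ≠ 0 → m ∈ AddSubgroup.zmultiples d) :
    ∃ p k : ℕ, p.Prime ∧ addOrderOf m = p ∧ Nat.card A = p ^ (k + 1) := by
  have hcard : Nat.card A ≠ 0 := Nat.card_pos.ne'
  have hnt : Nontrivial A := ⟨m, 0, hm⟩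
  have hcard1 : Nat.card A ≠ 1 := by
    have := Finite.one_lt_card (α := A)
    omega
  -- every prime divisor of the order equals the order of `m`
  have key : ∀ r : ℕ, r.Prime → r ∣ Nat.card A → r = addOrderOf m := by
    intro r hr hd
    have : Fact r.Prime := ⟨hr⟩
    obtain ⟨x, hx⟩ := exists_prime_addOrderOf_dvd_card' (G := A) r hd
    have hx0 : x ≠ 0 := by
      rintro rfl
      rw [addOrderOf_zero] at hx
      exact hr.one_lt.ne hx
    obtain ⟨z, hz⟩ := AddSubgroup.mem_zmultiples_iff.1 (h x hx0)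
    have h1 : addOrderOf m ∣ r := by
      rw [← hx, addOrderOf_dvd_iff_nsmul_eq_zero, ← hz, smul_comm, addOrderOf_nsmul_eq_zero,
        smul_zero]
    rcases (Nat.dvd_prime hr).1 h1 with h2 | h2
    · exact absurd (AddMonoid.addOrderOf_eq_one_iff.1 h2) hm
    · exact h2.symm
  obtain ⟨p, hp, hpd⟩ := Nat.exists_prime_and_dvd hcard1
  have hpm := key p hp hpd
  have hall := Nat.eq_prime_pow_of_unique_prime_dvd (p := p) hcard
    (fun {q} hq hqd => (key q hq hqd).trans hpm.symm)
  obtain ⟨k, hk⟩ : ∃ k, (Nat.card A).primeFactorsList.length = k + 1 := by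
    refine Nat.exists_eq_succ_of_ne_zero fun h0 => ?_
    rw [h0, pow_zero] at hall
    exact hcard1 hall
  exact ⟨p, k, hp, hpm.symm, by rw [← hk]; exact hall⟩

theorem grp_mem_of_prime {A : Type*} [AddCommGroup A] [Finite A] {p : ℕ} (hp : p.Prime)
    (m b : A) (hm : addOrderOf m = p) (hb : p • b = 0) (h : m ∈ AddSubgroup.zmultiples b) :
    b ∈ AddSubgroup.zmultiples m := by
  have hle : AddSubgroup.zmultiples m ≤ AddSubgroup.zmultiples b := by
    rwa [AddSubgroup.zmultiples_le]
  have hcb : Nat.card (AddSubgroup.zmultiples b) ≤ Nat.card (AddSubgroup.zmultiples m) := by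
    rw [Nat.card_zmultiples, Nat.card_zmultiples, hm]
    exact Nat.le_of_dvd hp.pos (addOrderOf_dvd_of_nsmul_eq_zero hb)
  have := AddSubgroup.eq_of_le_of_card_ge hle hcb
  rw [this]
  exact AddSubgroup.mem_zmultiples b

theorem grp_cyclic {A : Type*} [AddCommGroup A] [Finite A] (m : A) (hm : m ≠ 0)
    (h : ∀ d : A, d ≠ 0 → m ∈ AddSubgroup.zmultiples d) : IsAddCyclic A := by
  obtain ⟨p, k, hp, hmp, hcard⟩ := grp_prime m hm h
  have : Fact p.Prime := ⟨hp⟩
  obtain ⟨d, -, hd⟩ := Set.exists_max_image (Set.univ : Set A) addOrderOf (Set.toFinite _)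
    ⟨m, Set.mem_univ m⟩
  have hd0 : d ≠ 0 := by
    rintro rfl
    have := hd m (Set.mem_univ _)
    rw [hmp, addOrderOf_zero] at this
    exact absurd hp.one_lt (not_lt.2 this)
  refine ⟨⟨d, ?_⟩⟩
  have hord : ∀ a : A, ∃ i, addOrderOf a = p ^ i := by
    intro a
    have : addOrderOf a ∣ p ^ (k + 1) := by
      rw [← hcard]; exact addOrderOf_dvd_natCard a
    obtain ⟨i, _, hi⟩ := (Nat.dvd_prime_pow hp).1 this
    exact ⟨i, hi⟩
  suffices H : ∀ n : ℕ, ∀ a : A, addOrderOf a = p ^ n → a ∈ AddSubgroup.zmultiples d by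
    intro a
    obtain ⟨i, hi⟩ := hord a
    exact H i a hi
  intro n
  induction n with
  | zero =>
    intro a ha
    rw [pow_zero, AddMonoid.addOrderOf_eq_one_iff] at ha
    rw [ha]; exact AddSubgroup.zero_mem _
  | succ n ih =>
    intro a ha
    have hpa : addOrderOf (p • a) = p ^ n := by
      rw [addOrderOf_nsmul, ha, Nat.gcd_eq_right (dvd_pow_self p (Nat.succ_ne_zero n)), pow_succ,
        Nat.mul_div_cancel _ hp.pos]
    obtain ⟨z, hz⟩ := AddSubgroup.mem_zmultiples_iff.1 (ih (p • a) hpa)
    by_cases hpz : (p : ℤ) ∣ z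
    · obtain ⟨w, rfl⟩ := hpz
      have hb : p • (a - w • d) = 0 := by
        rw [smul_sub, ← hz, mul_smul, natCast_zsmul, sub_self]
      by_cases hb0 : a - w • d = 0
      · rw [sub_eq_zero] at hb0
        rw [hb0]
        exact AddSubgroup.zsmul_mem_zmultiples d w
      · have h1 := grp_mem_of_prime hp m _ hmp hb (h _ hb0)
        have h2 : a - w • d ∈ AddSubgroup.zmultiples d := by
          have h3 : AddSubgroup.zmultiples m ≤ AddSubgroup.zmultiples d := by
            rw [AddSubgroup.zmultiples_le]; exact h d hd0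
          exact h3 h1
        have h4 := AddSubgroup.add_mem _ h2 (AddSubgroup.zsmul_mem_zmultiples d w)
        rwa [sub_add_cancel] at h4
    · exfalso
      obtain ⟨j, hj⟩ := hord d
      have h1 : addOrderOf d ∣ p ^ n := by
        rw [addOrderOf_dvd_iff_nsmul_eq_zero]
        have h2 : ((p ^ n : ℕ) : ℤ) • (z • d) = 0 := by
          rw [hz, natCast_zsmul, ← hpa, addOrderOf_nsmul_eq_zero]
        have h3 : IsCoprime z ((p : ℤ) ^ j) := by
          apply IsCoprime.pow_right
          exact ((Nat.prime_iff_prime_int.1 hp).coprime_iff_not_dvd.2 hpz).symm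
        obtain ⟨u, v, huv⟩ := h3
        have h4 : ((p : ℤ) ^ j) • d = 0 := by
          have : ((p ^ j : ℕ) : ℤ) • d = 0 := by
            rw [natCast_zsmul, ← hj, addOrderOf_nsmul_eq_zero]
          simpa using this
        have h5 : d = u • (z • d) := by
          calc d = (1 : ℤ) • d := (one_smul _ _).symm
            _ = (u * z + v * (p : ℤ) ^ j) • d := by rw [huv]
            _ = u • (z • d) + v • (((p : ℤ) ^ j) • d) := by rw [add_smul, mul_smul, mul_smul]
            _ = u • (z • d) := by rw [h4, smul_zero, add_zero]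
        rw [h5, ← natCast_zsmul, smul_comm, h2, smul_zero]
      have h2 : p ^ (n + 1) ≤ p ^ n := by
        have := hd a (Set.mem_univ _)
        rw [ha] at this
        exact this.trans (Nat.le_of_dvd (pow_pos hp.pos n) h1)
      exact absurd h2 (not_le.2 (Nat.pow_lt_pow_right hp.one_lt (Nat.lt_succ_self n)))

theorem grp_cyc_mem {A : Type*} [AddCommGroup A] [Finite A] [IsAddCyclic A] {p k : ℕ}
    (hp : p.Prime) (hcard : Nat.card A = p ^ (k + 1)) (c d : A) (hc : p • c = 0) (hd : d ≠ 0) :
    c ∈ AddSubgroup.zmultiples d := by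
  classical
  have : Fintype A := Fintype.ofFinite A
  have h1 : addOrderOf d ∣ p ^ (k + 1) := by
    rw [← hcard]; exact addOrderOf_dvd_natCard d
  obtain ⟨i, _, hi⟩ := (Nat.dvd_prime_pow hp).1 h1
  obtain ⟨j, rfl⟩ : ∃ j, i = j + 1 := by
    refine Nat.exists_eq_succ_of_ne_zero fun h0 => ?_
    rw [h0, pow_zero, AddMonoid.addOrderOf_eq_one_iff] at hi
    exact hd hi
  have hd' : addOrderOf (p ^ j • d) = p := by
    rw [addOrderOf_nsmul, hi, Nat.gcd_eq_right (pow_dvd_pow p (Nat.le_succ j)),
      pow_succ, Nat.mul_div_cancel_left _ (pow_pos hp.pos j)]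
  have hsub : (AddSubgroup.zmultiples (p ^ j • d) : Set A).toFinset ⊆
      Finset.univ.filter (fun x : A => p • x = 0) := by
    intro x hx
    rw [Set.mem_toFinset] at hx
    obtain ⟨z, rfl⟩ := AddSubgroup.mem_zmultiples_iff.1 hx
    simp only [Finset.mem_filter, Finset.mem_univ, true_and]
    have h0 := addOrderOf_nsmul_eq_zero (p ^ j • d)
    rw [hd'] at h0
    rw [smul_comm, h0, smul_zero]
  have hcard2 : (Finset.univ.filter (fun x : A => p • x = 0)).card ≤
      ((AddSubgroup.zmultiples (p ^ j • d) : Set A).toFinset).card := by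
    refine (IsAddCyclic.card_nsmul_eq_zero_le hp.pos).trans ?_
    rw [Set.toFinset_card, ← Nat.card_eq_fintype_card]
    have : Nat.card (AddSubgroup.zmultiples (p ^ j • d)) = p := by
      rw [Nat.card_zmultiples, hd']
    exact this.ge
  have heq := Finset.eq_of_subset_of_card_le hsub hcard2
  have hcm : c ∈ Finset.univ.filter (fun x : A => p • x = 0) := by simp [hc]
  rw [← heq, Set.mem_toFinset] at hcm
  have hle : AddSubgroup.zmultiples (p ^ j • d) ≤ AddSubgroup.zmultiples d := by
    rw [AddSubgroup.zmultiples_le]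
    exact AddSubgroup.nsmul_mem _ (AddSubgroup.mem_zmultiples d) _
  exact hle hcm

/-! ### Subdirectly irreducible finite commutative rings -/

section Structure

variable {R : Type u} [NonUnitalCommRing R]

/-- The ideal of multiples of an element of the annihilator. -/
def annIdeal (d : annihilator R) : TwoSidedIdeal R :=
  mkIdeal (AddSubgroup.zmultiples (d : R)) (by
    intro r a ha
    obtain ⟨z, rfl⟩ := AddSubgroup.mem_zmultiples_iff.1 ha
    have h1 : (d : R) * r = 0 := d.2 r
    rw [mul_smul_comm, mul_comm, h1, smul_zero]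
    exact AddSubgroup.zero_mem _)

theorem mem_annIdeal (d : annihilator R) (x : R) :
    x ∈ annIdeal d ↔ x ∈ AddSubgroup.zmultiples (d : R) := mem_mkIdeal _ _ _

/-- An element acting without kernel on a finite ring yields an identity element. -/
theorem exists_one_of_ker [Finite R] (a : R) (ha : kerMul a = ⊥) :
    ∃ e : R, ∀ r : R, e * r = r := by
  have hinj : Function.Injective (fun x : R => a * x) := by
    intro x y hxy
    have : a * (x - y) = 0 := by
      rw [mul_sub]; exact sub_eq_zero.2 hxy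
    exact sub_eq_zero.1 ((eq_bot_iff' _).1 ha _ ((mem_kerMul _ _).2 this))
  have hsurj := Finite.surjective_of_injective hinj
  obtain ⟨e, he⟩ := hsurj a
  refine ⟨e, fun r => ?_⟩
  obtain ⟨s, rfl⟩ := hsurj r
  show e * (a * s) = a * s
  rw [← mul_assoc, mul_comm e a]
  exact congrArg (· * s) he

/-- The commutative ring with identity obtained from an identity element. -/
@[reducible] def ringOfOne (e : R) (he : ∀ r : R, e * r = r) : CommRing R :=
  { (inferInstance : NonUnitalCommRing R) with
    one := e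
    one_mul := he
    mul_one := fun r => by
      show r * e = r
      rw [mul_comm]; exact he r }

theorem localType_of_one [Finite R] (h : SubdirectlyIrreducible R) (e : R)
    (he : ∀ r : R, e * r = r) : LocalType R := by
  obtain ⟨M, hM, hMin⟩ := h
  let inst : CommRing R := ringOfOne e he
  -- ideals of `R` in the two senses
  let toT : Ideal R → TwoSidedIdeal R := fun I =>
    TwoSidedIdeal.mk' (I : Set R) I.zero_mem (fun ha hb => I.add_mem ha hb)
      (fun ha => I.neg_mem ha) (fun {r a} ha => I.mul_mem_left r ha)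
      (fun {a r} ha => I.mul_mem_right r ha)
  have hmemT : ∀ (I : Ideal R) (x : R), x ∈ toT I ↔ x ∈ I := fun I x => by
    show x ∈ TwoSidedIdeal.mk' _ _ _ _ _ _ ↔ _
    rw [TwoSidedIdeal.mem_mk']
    rfl
  let M' : Ideal R :=
    { carrier := M
      zero_mem' := M.zero_mem
      add_mem' := fun ha hb => M.add_mem ha hb
      smul_mem' := fun r x hx => M.mul_mem_left r x hx }
  have hM'0 : M' ≠ ⊥ := by
    obtain ⟨m, hm, hm0⟩ := (ne_bot_iff' M).1 hM
    intro h0
    apply hm0
    have : m ∈ M' := hm
    rw [h0] at this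
    simpa using this
  have hM'min : ∀ I : Ideal R, I ≠ ⊥ → M' ≤ I := by
    intro I hI x hx
    rw [← hmemT I x]
    refine hMin (toT I) ?_ hx
    rw [ne_bot_iff']
    obtain ⟨y, hy, hy0⟩ := Submodule.exists_mem_ne_zero_of_ne_bot hI
    exact ⟨y, (hmemT I y).2 hy, hy0⟩
  obtain ⟨m, hm, hm0⟩ := (ne_bot_iff' M).1 hM
  have hnt : Nontrivial R := ⟨m, 0, hm0⟩
  have hunit : ∀ a : R, a * m ≠ 0 → IsUnit a := by
    intro a ha
    have hinj : Function.Injective (fun x : R => a * x) := by
      intro x y hxy
      by_contra hne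
      have h0 : a * (x - y) = 0 := by
        rw [mul_sub]; exact sub_eq_zero.2 hxy
      have hle : M' ≤ LinearMap.ker (LinearMap.mulLeft R a) := by
        apply hM'min
        intro hbot
        have : x - y ∈ LinearMap.ker (LinearMap.mulLeft R a) := by
          rw [LinearMap.mem_ker]; exact h0
        rw [hbot] at this
        exact hne (sub_eq_zero.1 (by simpa using this))
      have := hle (show m ∈ M' from hm)
      rw [LinearMap.mem_ker] at this
      exact ha this
    obtain ⟨b, hb⟩ := Finite.surjective_of_injective hinj 1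
    exact IsUnit.of_mul_eq_one b hb
  have hlocal : IsLocalRing R := by
    apply IsLocalRing.of_nonunits_add
    intro a b ha hb
    have ha' : a * m = 0 := by
      by_contra h0; exact ha (hunit a h0)
    have hb' : b * m = 0 := by
      by_contra h0; exact hb (hunit b h0)
    intro hu
    have : (a + b) * m = 0 := by rw [add_mul, ha', hb', add_zero]
    exact hm0 (hu.mul_right_eq_zero.1 this)
  exact ⟨R, inst, hlocal, ⟨M', hM'0, hM'min⟩, ⟨RingEquiv.refl R⟩⟩

theorem type_of_si [Finite R] (h : SubdirectlyIrreducible R) :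
    LocalType R ∨ NilpotentType R := by
  by_cases hk : ∃ a : R, kerMul a = ⊥
  · obtain ⟨a, ha⟩ := hk
    obtain ⟨e, he⟩ := exists_one_of_ker a ha
    exact Or.inl (localType_of_one h e he)
  · right
    push Not at hk
    refine ⟨nilpotent_of_nil (nil_of_si h hk), ?_⟩
    obtain ⟨M, hM, hMin⟩ := h
    obtain ⟨m, hm, hm0⟩ := (ne_bot_iff' M).1 hM
    have hmA : m ∈ annihilator R := by
      intro r
      rw [mul_comm]
      exact (mem_kerMul r m).1 (hMin _ (hk r) hm)
    have key : ∀ d : annihilator R, d ≠ 0 →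
        (⟨m, hmA⟩ : annihilator R) ∈ AddSubgroup.zmultiples d := by
      intro d hd
      have hne : annIdeal d ≠ ⊥ := by
        rw [ne_bot_iff']
        refine ⟨(d : R), (mem_annIdeal d _).2 (AddSubgroup.mem_zmultiples _), ?_⟩
        intro h0
        exact hd (Subtype.ext h0)
      obtain ⟨z, hz⟩ := AddSubgroup.mem_zmultiples_iff.1 ((mem_annIdeal d m).1 (hMin _ hne hm))
      exact AddSubgroup.mem_zmultiples_iff.2 ⟨z, Subtype.ext hz⟩
    have hm0' : (⟨m, hmA⟩ : annihilator R) ≠ 0 := fun h0 => hm0 (congrArg Subtype.val h0)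
    obtain ⟨p, k, hp, -, hcard⟩ := grp_prime _ hm0' key
    exact ⟨grp_cyclic _ hm0' key, p, k, hp, hcard⟩

end Structure

/-! ### The identities -/

/-- The term `t ^ (n + 1)`. -/
def pwT (t : RTerm) : ℕ → RTerm
  | 0 => t
  | n + 1 => .mul (pwT t n) t

/-- The term `x₀ (x₁ ^ (q + 1) - x₁) ⋯ (xₙ ^ (q + 1) - xₙ)`. -/
def locT (q : ℕ) : ℕ → RTerm
  | 0 => .var 0
  | n + 1 => .mul (locT q n) (.add (pwT (.var (n + 1)) q) (.neg (.var (n + 1))))

/-- The term `x₀ x₁ ⋯ xₙ`. -/
def mulT : ℕ → RTerm
  | 0 => .var 0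
  | n + 1 => .mul (mulT n) (.var (n + 1))

/-- The term `n t`. -/
def nsT (t : RTerm) : ℕ → RTerm
  | 0 => .zero
  | n + 1 => .add (nsT t n) t

theorem eval_mulT {R : Type u} [NonUnitalRing R] (v : ℕ → R) (n : ℕ) :
    (mulT n).eval v = mulSeq v n := by
  induction n with
  | zero => rfl
  | succ n ih => simp only [mulT, RTerm.eval, ih, mulSeq]

theorem eval_nsT {R : Type u} [NonUnitalRing R] (v : ℕ → R) (t : RTerm) (n : ℕ) :
    (nsT t n).eval v = n • t.eval v := by
  induction n with
  | zero => simp [nsT, RTerm.eval]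
  | succ n ih => simp only [nsT, RTerm.eval, ih, succ_nsmul]

theorem eval_pwT {S : Type u} [CommRing S] (v : ℕ → S) (t : RTerm) (n : ℕ) :
    (pwT t n).eval v = (t.eval v) ^ (n + 1) := by
  induction n with
  | zero => simp [pwT]
  | succ n ih => simp only [pwT, RTerm.eval, ih]; rw [pow_succ _ (n + 1)]

theorem eval_locT {S : Type u} [CommRing S] (v : ℕ → S) (q n : ℕ) :
    (locT q (n + 1)).eval v = (locT q n).eval v * (v (n + 1) ^ (q + 1) - v (n + 1)) := by
  simp only [locT, RTerm.eval, eval_pwT, sub_eq_add_neg]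

theorem eval_locT_congr {S : Type u} [CommRing S] (v w : ℕ → S) (q n : ℕ)
    (h : ∀ i ≤ n, v i = w i) : (locT q n).eval v = (locT q n).eval w := by
  induction n with
  | zero => exact h 0 le_rfl
  | succ n ih =>
    rw [eval_locT, eval_locT, ih (fun i hi => h i (Nat.le_succ_of_le hi)), h (n + 1) le_rfl]

theorem eval_map {R : Type u} {S : Type u} [NonUnitalRing R] [NonUnitalRing S] (φ : R ≃+* S)
    (v : ℕ → R) (t : RTerm) : φ (t.eval v) = t.eval (fun i => φ (v i)) := by
  induction t with
  | var i => rfl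
  | zero => exact map_zero φ
  | neg s ih => simp only [RTerm.eval, map_neg, ih]
  | add s t ihs iht => simp only [RTerm.eval, map_add, ihs, iht]
  | mul s t ihs iht => simp only [RTerm.eval, map_mul, ihs, iht]

/-! ### The two types of rings are critical -/

theorem local_identity {S : Type u} [CommRing S] [Finite S] [IsLocalRing S]
    (M : Ideal S) (hM : M ≠ ⊥) (hMin : ∀ I : Ideal S, I ≠ ⊥ → M ≤ I) :
    ∃ t : RTerm, (∀ v : ℕ → S, t.eval v ∈ M) ∧ ∃ v : ℕ → S, t.eval v ≠ 0 := by
  classical
  set J := IsLocalRing.maximalIdeal S with hJ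
  have hnil : ∃ n, J ^ n = ⊥ := by
    have := (isArtinianRing_iff_isNilpotent_maximalIdeal S).1 inferInstance
    exact this
  obtain ⟨n, hn⟩ : ∃ n, Nat.find hnil = n + 1 := by
    refine Nat.exists_eq_succ_of_ne_zero fun h0 => ?_
    have h1 := Nat.find_spec hnil
    rw [h0, pow_zero, Ideal.one_eq_top] at h1
    exact top_ne_bot h1
  have hJn1 : J ^ (n + 1) = ⊥ := by rw [← hn]; exact Nat.find_spec hnil
  have hJn : J ^ n ≠ ⊥ := Nat.find_min hnil (by omega)
  -- the residue field
  have hfinr : Finite (IsLocalRing.ResidueField S) :=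
    Finite.of_surjective (IsLocalRing.residue S) IsLocalRing.residue_surjective
  have hfr : Fintype (IsLocalRing.ResidueField S) := Fintype.ofFinite _
  obtain ⟨q, hq⟩ : ∃ q, Fintype.card (IsLocalRing.ResidueField S) = q + 1 :=
    Nat.exists_eq_succ_of_ne_zero Fintype.card_ne_zero
  have hq1 : 1 ≤ q := by
    have := Fintype.one_lt_card (α := IsLocalRing.ResidueField S)
    omega
  have hres : ∀ a : S, a ^ (q + 1) - a ∈ J := by
    intro a
    rw [hJ, ← IsLocalRing.residue_eq_zero_iff, map_sub, map_pow, ← hq, FiniteField.pow_card,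
      sub_self]
  refine ⟨locT q n, ?_, ?_⟩
  · -- values lie in `J ^ n`, hence in `M`
    intro v
    have h1 : ∀ k, (locT q k).eval v ∈ J ^ k := by
      intro k
      induction k with
      | zero => rw [pow_zero, Ideal.one_eq_top]; exact Submodule.mem_top
      | succ k ih =>
        rw [eval_locT, pow_succ]
        exact Ideal.mul_mem_mul ih (hres _)
    by_cases h0 : (locT q n).eval v = 0
    · rw [h0]; exact M.zero_mem
    · obtain ⟨m, hm, hm0⟩ := Submodule.exists_mem_ne_zero_of_ne_bot hM
      have h2 : M ≤ Ideal.span {(locT q n).eval v} := by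
        apply hMin
        rw [ne_eq, Ideal.span_singleton_eq_bot]
        exact h0
      obtain ⟨r, hr⟩ := Ideal.mem_span_singleton'.1 (h2 hm)
      have hru : IsUnit r := by
        by_contra hru
        have hrJ : r ∈ J := hru
        apply hm0
        rw [← hr]
        have : r * (locT q n).eval v ∈ J ^ (n + 1) := by
          rw [pow_succ']
          exact Ideal.mul_mem_mul hrJ (h1 n)
        rw [hJn1] at this
        simpa using this
      obtain ⟨u, rfl⟩ := hru
      have : (locT q n).eval v = (↑u⁻¹ : S) * m := by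
        rw [← hr, ← mul_assoc, Units.inv_mul, one_mul]
      rw [this]
      exact M.mul_mem_left _ hm
  · -- some value is nonzero
    have claim : ∀ k : ℕ, ∀ x : S, (∃ y ∈ J ^ k, x * y ≠ 0) →
        ∃ v : ℕ → S, x * (locT q k).eval v ≠ 0 := by
      intro k
      induction k with
      | zero =>
        rintro x ⟨y, -, hy⟩
        exact ⟨fun _ => y, hy⟩
      | succ k ih =>
        rintro x ⟨y, hy, hxy⟩
        obtain ⟨a, ha, b, hb, hab⟩ : ∃ a ∈ J ^ k, ∃ b ∈ J, x * (a * b) ≠ 0 := by
          by_contra hcon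
          push Not at hcon
          apply hxy
          rw [pow_succ] at hy
          refine Submodule.mul_induction_on hy (fun a ha b hb => hcon a ha b hb) ?_
          intro c d hc hd
          rw [mul_add, hc, hd, add_zero]
        obtain ⟨v, hv⟩ := ih (x * b) ⟨a, ha, by
          rwa [mul_assoc, mul_comm b a]⟩
        refine ⟨Function.update v (k + 1) b, ?_⟩
        rw [eval_locT, eval_locT_congr (Function.update v (k + 1) b) v q k
          (fun i hi => Function.update_of_ne (by omega) _ _), Function.update_self]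
        have hbu : IsUnit (b ^ q - 1) := by
          by_contra hnu
          have h1 : b ^ q - 1 ∈ J := hnu
          have h2 : b ^ q ∈ J := Ideal.pow_mem_of_mem J hb q hq1
          have h3 : (1 : S) ∈ J := by
            have := J.sub_mem h2 h1
            rwa [sub_sub_cancel] at this
          exact (Ideal.ne_top_iff_one J).1 (IsLocalRing.maximalIdeal.isMaximal S).ne_top h3
        have heq : x * ((locT q k).eval v * (b ^ (q + 1) - b)) =
            (b ^ q - 1) * (x * b * (locT q k).eval v) := by ring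
        rw [heq]
        intro h0
        exact hv (hbu.mul_right_eq_zero.1 h0)
    obtain ⟨y, hy, hy0⟩ := Submodule.exists_mem_ne_zero_of_ne_bot hJn
    obtain ⟨v, hv⟩ := claim n 1 ⟨y, hy, by rwa [one_mul]⟩
    exact ⟨v, by rwa [one_mul] at hv⟩

theorem critical_of_local {R : Type u} [NonUnitalCommRing R] [Finite R] (h : LocalType R) :
    Critical R := by
  obtain ⟨S, instS, hloc, ⟨M, hM, hMin⟩, ⟨φ⟩⟩ := h
  have : Finite S := Finite.of_equiv R φ.toEquiv
  obtain ⟨t, ht, w, hw⟩ := local_identity M hM hMin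
  rw [critical_iff]
  refine ⟨t, .zero, ?_, fun i => φ.symm (w i), ?_⟩
  · intro I hI v
    let I' : Ideal S :=
      { carrier := {x | φ.symm x ∈ I}
        zero_mem' := by
          show φ.symm 0 ∈ I
          rw [map_zero]; exact I.zero_mem
        add_mem' := fun {a b} ha hb => by
          show φ.symm (a + b) ∈ I
          rw [map_add]; exact I.add_mem ha hb
        smul_mem' := fun r x hx => by
          show φ.symm (r * x) ∈ I
          rw [map_mul]; exact I.mul_mem_left _ _ hx }
    have hI' : I' ≠ ⊥ := by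
      obtain ⟨x, hx, hx0⟩ := (ne_bot_iff' I).1 hI
      intro hbot
      have h1 : φ x ∈ I' := by
        show φ.symm (φ x) ∈ I
        rw [RingEquiv.symm_apply_apply]; exact hx
      rw [hbot] at h1
      exact hx0 ((map_eq_zero_iff φ φ.injective).1 (by simpa using h1))
    have h2 : t.eval (fun i => φ (v i)) ∈ I' := hMin I' hI' (ht _)
    have h3 : φ.symm (t.eval (fun i => φ (v i))) ∈ I := h2
    rw [← eval_map, RingEquiv.symm_apply_apply] at h3
    show t.eval v - 0 ∈ I
    rwa [sub_zero]
  · show t.eval _ - 0 ≠ 0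
    rw [sub_zero]
    intro h0
    apply hw
    have h1 := eval_map φ (fun i => φ.symm (w i)) t
    rw [h0, map_zero] at h1
    simpa using h1.symm

theorem mulSeq_congr {R : Type u} [NonUnitalRing R] (v w : ℕ → R) (n : ℕ)
    (h : ∀ i ≤ n, v i = w i) : mulSeq v n = mulSeq w n := by
  induction n with
  | zero => exact h 0 le_rfl
  | succ n ih =>
    show mulSeq v n * v (n + 1) = mulSeq w n * w (n + 1)
    rw [ih (fun i hi => h i (Nat.le_succ_of_le hi)), h (n + 1) le_rfl]

theorem critical_of_nilpotent {R : Type u} [NonUnitalCommRing R] [Finite R]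
    (h : NilpotentType R) : Critical R := by
  classical
  obtain ⟨hnil, hcyc, p, k, hp, hcard⟩ := h
  -- products of `n + 2` elements vanish, but not all products of `n + 1` elements
  have hfind := Nat.find_spec hnil
  have hmin : ∀ m < Nat.find hnil, ¬ ∀ v : ℕ → R, mulSeq v m = 0 := fun m hm =>
    Nat.find_min hnil hm
  obtain ⟨n, hn⟩ : ∃ n, Nat.find hnil = n + 1 := by
    refine Nat.exists_eq_succ_of_ne_zero fun h0 => ?_
    rw [h0] at hfind
    have hz : ∀ x : R, x = 0 := fun x => hfind (fun _ => x)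
    have h1 : Nat.card (annihilator R) = 1 := by
      rw [Nat.card_eq_one_iff_unique]
      exact ⟨⟨fun a b => Subtype.ext ((hz _).trans (hz _).symm)⟩, ⟨0⟩⟩
    rw [h1] at hcard
    exact absurd hcard (Nat.one_lt_pow (Nat.succ_ne_zero k) hp.one_lt).ne
  rw [hn] at hfind hmin
  have hne := hmin n (Nat.lt_succ_self n)
  push Not at hne
  -- such products lie in the annihilator
  have hA : ∀ v : ℕ → R, mulSeq v n ∈ annihilator R := by
    intro v r
    have h1 := hfind (Function.update v (n + 1) r)
    have h2 : mulSeq (Function.update v (n + 1) r) (n + 1) = mulSeq v n * r := by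
      show mulSeq (Function.update v (n + 1) r) n * Function.update v (n + 1) r (n + 1) = _
      rw [Function.update_self, mulSeq_congr (Function.update v (n + 1) r) v n
        (fun i hi => Function.update_of_ne (by omega) _ _)]
    rw [← h2, h1]
  -- the exponent of `p`
  have hexp : ∃ j, ∀ v : ℕ → R, p ^ j • mulSeq v n = 0 := by
    refine ⟨k + 1, fun v => ?_⟩
    have h1 : Nat.card (annihilator R) • (⟨mulSeq v n, hA v⟩ : annihilator R) = 0 :=
      card_nsmul_eq_zero'
    rw [hcard] at h1
    exact congrArg Subtype.val h1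
  have hj := Nat.find_spec hexp
  have hjmin : ∀ m < Nat.find hexp, ¬ ∀ v : ℕ → R, p ^ m • mulSeq v n = 0 := fun m hm =>
    Nat.find_min hexp hm
  obtain ⟨j, hjj⟩ : ∃ j, Nat.find hexp = j + 1 := by
    refine Nat.exists_eq_succ_of_ne_zero fun h0 => ?_
    rw [h0] at hj
    obtain ⟨v, hv⟩ := hne
    apply hv
    have := hj v
    rwa [pow_zero, one_smul] at this
  rw [hjj] at hj hjmin
  have hne2 := hjmin j (Nat.lt_succ_self j)
  push Not at hne2
  rw [critical_iff]
  refine ⟨nsT (mulT n) (p ^ j), .zero, ?_, ?_⟩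
  · intro I hI v
    show (nsT (mulT n) (p ^ j)).eval v - 0 ∈ I
    rw [sub_zero, eval_nsT, eval_mulT]
    -- a nonzero element of `I` in the annihilator
    obtain ⟨d, hdI, hd0, hdA⟩ : ∃ d ∈ I, d ≠ 0 ∧ d ∈ annihilator R := by
      obtain ⟨x, hx, hx0⟩ := (ne_bot_iff' I).1 hI
      by_cases hxA : x ∈ annihilator R
      · exact ⟨x, hx, hx0, hxA⟩
      · have hex : ∃ m, ∀ w : ℕ → R, x * mulSeq w m = 0 := by
          refine ⟨n + 1, fun w => ?_⟩
          rw [hfind w, mul_zero]
        have hs := Nat.find_spec hex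
        have hsm : ∀ m < Nat.find hex, ¬ ∀ w : ℕ → R, x * mulSeq w m = 0 := fun m hm =>
          Nat.find_min hex hm
        obtain ⟨i, hi⟩ : ∃ i, Nat.find hex = i + 1 := by
          refine Nat.exists_eq_succ_of_ne_zero fun h0 => ?_
          rw [h0] at hs
          exact hxA (fun r => hs (fun _ => r))
        rw [hi] at hs hsm
        have h3 := hsm i (Nat.lt_succ_self i)
        push Not at h3
        obtain ⟨w, hw⟩ := h3
        refine ⟨x * mulSeq w i, I.mul_mem_right _ _ hx, hw, ?_⟩
        intro r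
        have h1 := hs (Function.update w (i + 1) r)
        have h2 : mulSeq (Function.update w (i + 1) r) (i + 1) = mulSeq w i * r := by
          show mulSeq (Function.update w (i + 1) r) i * Function.update w (i + 1) r (i + 1) = _
          rw [Function.update_self, mulSeq_congr (Function.update w (i + 1) r) w i
            (fun l hl => Function.update_of_ne (by omega) _ _)]
        rw [mul_assoc, ← h2, h1]
    have hmem : (⟨p ^ j • mulSeq v n, (annihilator R).nsmul_mem (hA v) _⟩ : annihilator R) ∈
        AddSubgroup.zmultiples (⟨d, hdA⟩ : annihilator R) := by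
      refine grp_cyc_mem hp hcard _ _ ?_ ?_
      · apply Subtype.ext
        show p • (p ^ j • mulSeq v n) = 0
        rw [← mul_smul, ← pow_succ']
        exact hj v
      · intro h0
        exact hd0 (congrArg Subtype.val h0)
    obtain ⟨z, hz⟩ := AddSubgroup.mem_zmultiples_iff.1 hmem
    have hz' : z • d = p ^ j • mulSeq v n := congrArg Subtype.val hz
    rw [← hz']
    exact I.zsmul_mem z hdI
  · obtain ⟨v, hv⟩ := hne2
    refine ⟨v, ?_⟩
    show (nsT (mulT n) (p ^ j)).eval v - 0 ≠ 0
    rw [sub_zero, eval_nsT, eval_mulT]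
    exact hv

/-- The three conditions are equivalent. -/
theorem main (R : Type u) [NonUnitalCommRing R] [Finite R] :
    [Critical R, SubdirectlyIrreducible R, LocalType R ∨ NilpotentType R].TFAE := by
  tfae_have 1 → 2 := si_of_critical
  tfae_have 2 → 3 := type_of_si
  tfae_have 3 → 1 := fun h => h.elim critical_of_local critical_of_nilpotent
  tfae_finish

end Pool.Agent.H36R2.Crit
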